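import Pool.Agent.Q157.FC.Bridge
import Pool.Agent.Q157.FC.Gadget

/-!
# MP_08830e_co: the Grundy values of 2-colour flag coloring are unbounded

For every `n` there is a position of the Grundy value `n`.
-/

namespace Pool.Agent.Results.MP_08830e_co.EveryGrundyValue

open Pool.Agent.Q157.FC

lemma rep_start {α : Type} [Fintype α] [DecidableEq α] (N : α → Finset ℕ) (I : Finset ℕ) :
    Rep N I (fun v => v.isLeft) Finset.univ I := by
  refine ⟨Finset.Subset.refl _, rfl, rfl, fun _ _ => rfl, fun _ _ => rfl, fun _ _ _ _ => rfl,
    fun _ _ _ _ => rfl, ?_, ?_⟩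
  · intro x hx
    exact absurd (Finset.mem_univ x) hx
  · intro y hy
    exact absurd y.2 hy

/-- A multiset of sets gives a position whose Grundy value is its value. -/
lemma exists_position (F : Multiset (Finset ℕ)) (I : Finset ℕ) :
    ∃ (V : Type) (_ : Fintype V) (G : SimpleGraph V) (χ : V → Bool),
      G.Connected ∧ grundy G χ = val F I := by
  classical
  refine ⟨Option F.ToType ⊕ Option {y // y ∈ I}, inferInstance,
    graph (fun x : F.ToType => x.1) I, fun v => v.isLeft, connected _ _, ?_⟩
  rw [(rep_start (fun x : F.ToType => x.1) I).value]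
  congr 1
  exact Multiset.map_univ_coe F

lemma large_value (j : ℕ) (hj : 1 ≤ j) :
    ∃ (F : Multiset (Finset ℕ)) (I : Finset ℕ), val F I = j + 2 := by
  obtain ⟨m, hm1, hm2, hm3⟩ := exists_gadget j 1 (by norm_num)
  obtain ⟨H, hH, hval⟩ := hm3 (Finset.range m) (Finset.card_range m) m (by simp)
  obtain ⟨k, hk⟩ : ∃ k, k = j + 4 + (j + m + 1) % 2 := ⟨_, rfl⟩
  refine ⟨H + H + Multiset.replicate k ∅, Finset.range m, ?_⟩
  rw [hval]
  · unfold w; rw [if_neg (by omega)]
  · refine ⟨?_, ?_, ?_⟩
    · intro S hS
      rw [Multiset.eq_of_mem_replicate hS]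
      exact Or.inl (Finset.disjoint_empty_left _)
    · intro y hy
      rw [Multiset.filter_eq_nil.mpr]
      · simp
      · intro S hS
        rw [Multiset.eq_of_mem_replicate hS]
        simp
    · rw [Multiset.filter_eq_self.mpr]
      · rw [Multiset.card_replicate]; omega
      · intro S hS
        rw [Multiset.eq_of_mem_replicate hS]
        exact Finset.disjoint_empty_left _
  · rw [if_neg (by omega), Multiset.card_add, Multiset.card_add, Multiset.card_replicate]
    omega

/-- **Main theorem.** For every `n` there is a position (a finite connected graph with a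
2-colouring) of 2-colour flag coloring whose Grundy value is `n`. -/
theorem result : ∀ n : ℕ, ∃ (V : Type) (_ : Fintype V) (G : SimpleGraph V) (χ : V → Bool),
    G.Connected ∧ grundy G χ = n := by
  intro n
  obtain ⟨F, I, hFI⟩ := large_value (n + 1) (by omega)
  obtain ⟨V, hV, G, χ, hG, hχ⟩ := exists_position F I
  by_contra hcon
  push Not at hcon
  have h1 : grundy G χ ≤ n := by
    rw [grundy_def]
    apply Nat.sInf_le
    intro χ' _
    exact hcon V hV G χ' hG
  omega

end Pool.Agent.Results.MP_08830e_co.EveryGrundyValue
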